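import Pool.Agent.H69.LQ.Lib
import Pool.Agent.H69.LNN.Targets

/-!
# The profile in the inner ball

The quotient `ph N L 1 r / r` is antitone on `[0, 1]`, and its value at `aa N K₁` is known from the
expansion of the profile at the boundary.
-/

set_option autoImplicit false

open MeasureTheory Metric Set
open scoped ENNReal

open Pool.Agent.H85.LK (E adm lam Ann)
open Pool.Agent.H69.LQ
open Pool.Agent.H69.LNN

namespace Pool.Agent.H72.LNN

/-- (HA) the profile in the inner ball. -/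
theorem pf_HA (hJS : T_JS) (hJP : T_JP) (hPE : T_PE) (hPN : T_PN) : T_HA := by
  intro K₁ hK
  have hK0 : 0 < K₁ := by linarith
  obtain ⟨N₀, hN₀, hpn⟩ := hPN K₁ (1 / (2 * K₁ ^ 2)) hK (by positivity)
  refine ⟨N₀, hN₀, ?_⟩
  intro N L r hN hL hr hra
  have hN3 : 3 ≤ N := hN₀.trans hN
  have hNr : (3 : ℝ) ≤ N := by exact_mod_cast hN3
  have hNpos : (0 : ℝ) < N := by linarith
  obtain ⟨-, -, -, -, -, hneg⟩ := hPE N L hN3 hL
  set q := |dph N L 1 1| with hq
  have hqe : dph N L 1 1 = -q := by rw [hq, abs_of_neg hneg]; ring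
  have hq0 : 0 ≤ q := abs_nonneg _
  set α : ℝ := -K₁ / N with hα
  have hNα : (N : ℝ) * α = -K₁ := by rw [hα]; field_simp
  have hαneg : α ≤ 0 := by
    rw [hα]
    exact div_nonpos_of_nonpos_of_nonneg (by linarith) hNpos.le
  have habs : |α| = K₁ / N := by
    rw [abs_of_nonpos hαneg, hα]; ring
  have h1 := (hpn N L α hN hL habs.le).2
  rw [hNα, habs] at h1
  have h2 : 1 / (2 * K₁ ^ 2) * q * (K₁ / N) * (-K₁) ^ 2 = q * K₁ / (2 * N) := by
    field_simp
  have h3 : dph N L 1 1 * α = q * K₁ / N := by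
    rw [hqe, hα]; ring
  rw [← hq, h2, h3] at h1
  have h4 : q * K₁ / (2 * N) ≤ Px N L α := by
    have h5 := (abs_le.mp h1).1
    have h6 : q * K₁ / N = q * K₁ / (2 * N) + q * K₁ / (2 * N) := by
      field_simp
      ring
    linarith
  -- the quotient
  set ν : ℝ := (N : ℝ) / 2 + 1 with hν
  have hν1 : 1 ≤ ν := by rw [hν]; linarith
  have hJpos := hJP ν (L / 4) hν1 (by linarith [hL.pos]) hL.first
  have hderiv := (hJS ν (by linarith)).2.2.1
  have hanti : AntitoneOn (J ν) (Icc 0 (L / 4)) := by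
    apply antitoneOn_of_deriv_nonpos (convex_Icc _ _)
    · exact fun z _ => (hderiv z).continuousAt.continuousWithinAt
    · exact fun z _ => (hderiv z).differentiableAt.differentiableWithinAt
    · intro z hz
      have hz' := interior_subset hz
      rw [(hderiv z).deriv]
      have h5 := hJpos z hz'.1 hz'.2
      have h6 : 0 < J (ν + 1) z / ν := by positivity
      linarith
  have hph : ∀ x : ℝ, ph N L 1 x = x * J ν (L * x ^ 2 / 4) := by
    intro x
    simp [ph, hν]
  set a := aa N K₁ with ha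
  have haexp : a = Real.exp α := by rw [ha, aa, hα]
  have ha0 : 0 < a := by rw [haexp]; exact Real.exp_pos _
  have ha1 : a ≤ 1 := by rw [haexp]; exact Real.exp_le_one_iff.mpr hαneg
  have hPx : Px N L α = Real.exp (-(K₁ / 2)) * J ν (L * a ^ 2 / 4) := by
    have h5 : Px N L α = Real.exp (((N : ℝ) / 2 - 1) * α) * (a * J ν (L * a ^ 2 / 4)) := by
      rw [← hph a, haexp]
      rfl
    have h6 : Real.exp (((N : ℝ) / 2 - 1) * α) * a = Real.exp (-(K₁ / 2)) := by
      rw [haexp, ← Real.exp_add]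
      congr 1
      have : ((N : ℝ) / 2 - 1) * α + α = (N : ℝ) * α / 2 := by ring
      rw [this, hNα]
      ring
    rw [h5, ← mul_assoc, h6]
  have hJa : J ν (L * a ^ 2 / 4) = Real.exp (K₁ / 2) * Px N L α := by
    rw [hPx, ← mul_assoc, ← Real.exp_add]
    simp
  have hle : J ν (L * a ^ 2 / 4) ≤ J ν (L * r ^ 2 / 4) := by
    have hL0 := hL.pos
    have hr2 : r ^ 2 ≤ a ^ 2 := pow_le_pow_left₀ hr.le hra 2
    have ha2 : a ^ 2 ≤ 1 := pow_le_one₀ ha0.le ha1
    apply hanti
    · refine ⟨by positivity, ?_⟩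
      have : L * r ^ 2 ≤ L * 1 := mul_le_mul_of_nonneg_left (hr2.trans ha2) hL0.le
      linarith
    · refine ⟨by positivity, ?_⟩
      have : L * a ^ 2 ≤ L * 1 := mul_le_mul_of_nonneg_left ha2 hL0.le
      linarith
    · have : L * r ^ 2 ≤ L * a ^ 2 := mul_le_mul_of_nonneg_left hr2 hL0.le
      linarith
  have hfin : Real.exp (K₁ / 2) * (q * K₁ / (2 * N)) ≤ J ν (L * r ^ 2 / 4) := by
    refine le_trans ?_ hle
    rw [hJa]
    exact mul_le_mul_of_nonneg_left h4 (Real.exp_pos _).le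
  rw [hph r]
  calc q / N * (K₁ / 2 * Real.exp (K₁ / 2)) * r
      = r * (Real.exp (K₁ / 2) * (q * K₁ / (2 * N))) := by field_simp
    _ ≤ r * J ν (L * r ^ 2 / 4) := mul_le_mul_of_nonneg_left hfin hr.le

end Pool.Agent.H72.LNN
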