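import Pool.Agent.H69.LQ.Lib
import Pool.Agent.H69.LNN.Targets

/-!
# Lower bound for the second eigenvalue

If `L < N ^ 2 / 4`, then the profile in the logarithmic variable is convex on the negative half
line; it vanishes at `0` with a negative derivative, so that it is unbounded.
-/

set_option autoImplicit false

open MeasureTheory Metric Set
open scoped ENNReal

open Pool.Agent.H85.LK (E adm lam Ann)
open Pool.Agent.H69.LQ
open Pool.Agent.H69.LNN

namespace Pool.Agent.H72.LNN

/-- (L1) lower bound for `L`. -/
theorem pf_L1 (hPH : T_PH) (hPE : T_PE) : T_L1 := by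
  intro N L hN hL
  by_contra hlt
  push Not at hlt
  obtain ⟨d1, d2, p0, p0', ppos, hneg⟩ := hPE N L hN hL
  set c := -dph N L 1 1 with hc
  have hcpos : 0 < c := by rw [hc]; linarith
  have hmono : MonotoneOn (Px' N L) (Iic 0) := by
    apply monotoneOn_of_deriv_nonneg (convex_Iic 0)
    · exact fun x _ => (d2 x).continuousAt.continuousWithinAt
    · exact fun x _ => (d2 x).differentiableAt.differentiableWithinAt
    · intro x hx
      rw [interior_Iic, mem_Iio] at hx
      rw [(d2 x).deriv]
      have h1 : 0 < Px N L x := ppos x hx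
      have h2 : 0 ≤ qx N L x := by
        have h3 : Real.exp (2 * x) ≤ 1 := Real.exp_le_one_iff.mpr (by linarith)
        have h4 : L * Real.exp (2 * x) ≤ L * 1 := mul_le_mul_of_nonneg_left h3 hL.pos.le
        unfold qx
        linarith
      positivity
  have hanti : AntitoneOn (fun x => Px N L x + c * x) (Iic 0) := by
    apply antitoneOn_of_deriv_nonpos (convex_Iic 0)
    · exact fun x _ => ((d1 x).continuousAt.add (by fun_prop)).continuousWithinAt
    · exact fun x _ => ((d1 x).differentiableAt.add (by fun_prop)).differentiableWithinAt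
    · intro x hx
      rw [interior_Iic, mem_Iio] at hx
      have h1 : HasDerivAt (fun x => Px N L x + c * x) (Px' N L x + c * 1) x :=
        (d1 x).add ((hasDerivAt_id x).const_mul c)
      rw [h1.deriv]
      have h2 := hmono (mem_Iic.mpr hx.le) (mem_Iic.mpr le_rfl) hx.le
      rw [p0'] at h2
      rw [hc]
      linarith
  have hcont : Continuous (ph N L 1) := ((hPH N L (by omega)).2.1 1).1.continuous
  obtain ⟨C, hC⟩ := (isCompact_Icc (a := (0 : ℝ)) (b := 1)).exists_bound_of_continuousOn
    hcont.continuousOn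
  have hC0 : 0 ≤ C := (norm_nonneg _).trans (hC 0 (by simp))
  have hb : ∀ x, x ≤ 0 → Px N L x ≤ C := by
    intro x hx
    have h1 := hC (Real.exp x) ⟨(Real.exp_pos x).le, Real.exp_le_one_iff.mpr hx⟩
    rw [Real.norm_eq_abs] at h1
    have h2 : Real.exp (((N : ℝ) / 2 - 1) * x) ≤ 1 := by
      apply Real.exp_le_one_iff.mpr
      have h3 : (3 : ℝ) ≤ N := by exact_mod_cast hN
      exact mul_nonpos_of_nonneg_of_nonpos (by linarith) hx
    have h4 : ph N L 1 (Real.exp x) ≤ C := (le_abs_self _).trans h1
    unfold Px gx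
    calc Real.exp (((N : ℝ) / 2 - 1) * x) * ph N L 1 (Real.exp x)
        ≤ Real.exp (((N : ℝ) / 2 - 1) * x) * C :=
          mul_le_mul_of_nonneg_left h4 (Real.exp_pos _).le
      _ ≤ 1 * C := mul_le_mul_of_nonneg_right h2 hC0
      _ = C := one_mul C
  have hx : -((C + 1) / c) ≤ 0 := by
    have : 0 ≤ (C + 1) / c := by positivity
    linarith
  have h1 := hanti (mem_Iic.mpr hx) (mem_Iic.mpr le_rfl) hx
  have h2 := hb _ hx
  have h3 : c * ((C + 1) / c) = C + 1 := by field_simp
  simp only [p0, mul_zero, add_zero, mul_neg] at h1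
  linarith

end Pool.Agent.H72.LNN
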