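import Pool.Agent.H69.LQ.Lib
import Pool.Agent.H69.LNN.Targets

/-!
# Rays of small volume

The lower bound for the quadratic form on a ray of small volume, from the bounds for the inner and
the outer part.
-/

set_option autoImplicit false

open MeasureTheory Metric Set
open scoped ENNReal

open Pool.Agent.H85.LK (E adm lam Ann)
open Pool.Agent.H69.LQ
open Pool.Agent.H69.LNN

namespace Pool.Agent.H72.LNN

/-- The coefficient `τ` may be replaced by the coefficient `T`. -/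
lemma rg_swap {K ε h e T τ : ℝ} (hK : 1 ≤ K) (hε : 0 < ε) (hε1 : ε ≤ 1) (he0 : 0 ≤ e)
    (he : e ≤ ε / 25) (hh : h ≤ K + 1) (hb : e * (-h) ≤ ε / 10) :
    (h + e * h ^ 2) * τ ^ 2 ≤ (ht h + ε * ht h ^ 2) * T ^ 2 + 3 / ε * (K + 2) ^ 2 * (T - τ) ^ 2 := by
  obtain ⟨D, hD⟩ : ∃ D, τ = T - D := ⟨T - τ, by ring⟩
  have hTD : T - τ = D := by rw [hD]; ring
  rw [hTD]
  have hεi : 1 ≤ 1 / ε := by rw [le_div_iff₀ hε]; linarith
  have hM9 : 9 ≤ (K + 2) ^ 2 := by nlinarith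
  have hM : 3 / ε * (K + 2) ^ 2 = 1 / ε * (K + 2) ^ 2 + 2 * (1 / ε * (K + 2) ^ 2) := by
    field_simp
    ring
  have hM1 : 9 * (1 / ε) ≤ 1 / ε * (K + 2) ^ 2 := by
    have := mul_le_mul_of_nonneg_left hM9 (by linarith : (0 : ℝ) ≤ 1 / ε)
    linarith
  have hM2 : (K + 2) ^ 2 ≤ 1 / ε * (K + 2) ^ 2 := by
    have := mul_le_mul_of_nonneg_right hεi (by positivity : (0 : ℝ) ≤ (K + 2) ^ 2)
    linarith
  rcases le_total (-(3 / 2)) h with h1 | h1
  · have hht : ht h = h := max_eq_left h1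
    rw [hht]
    have hsq : 0 ≤ ε / 2 * h ^ 2 * T ^ 2 + 2 * h * T * D + 2 * (1 / ε) * D ^ 2 := by
      have := mul_nonneg (by positivity : (0 : ℝ) ≤ 2 / ε) (sq_nonneg (ε * h * T / 2 + D))
      have h2 : 2 / ε * (ε * h * T / 2 + D) ^ 2 =
          ε / 2 * h ^ 2 * T ^ 2 + 2 * h * T * D + 2 * (1 / ε) * D ^ 2 := by
        field_simp
        ring
      linarith
    have habs : |h| ≤ K + 1 := abs_le.mpr ⟨by linarith, hh⟩
    have hh2 : h ^ 2 ≤ (K + 1) ^ 2 := by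
      rw [← sq_abs]
      exact pow_le_pow_left₀ (abs_nonneg _) habs 2
    have hτ2 : τ ^ 2 ≤ 2 * T ^ 2 + 2 * D ^ 2 := by
      rw [hD]
      nlinarith [sq_nonneg (T + D)]
    have h3 : e * h ^ 2 * τ ^ 2 ≤ ε / 25 * h ^ 2 * (2 * T ^ 2 + 2 * D ^ 2) :=
      mul_le_mul (mul_le_mul_of_nonneg_right he (sq_nonneg _)) hτ2 (sq_nonneg _) (by positivity)
    have h4 : h * τ ^ 2 = h * T ^ 2 - 2 * h * T * D + h * D ^ 2 := by rw [hD]; ring
    have h5 : h * D ^ 2 ≤ (K + 1) * D ^ 2 := mul_le_mul_of_nonneg_right hh (sq_nonneg _)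
    have h6 : ε / 25 * h ^ 2 * (2 * D ^ 2) ≤ (K + 1) ^ 2 * D ^ 2 := by
      have h7 : ε / 25 * h ^ 2 * 2 ≤ (K + 1) ^ 2 := by nlinarith [sq_nonneg h]
      have := mul_le_mul_of_nonneg_right h7 (sq_nonneg D)
      linarith
    have h8 : 0 ≤ ε * h ^ 2 * T ^ 2 := by positivity
    have h9 : (K + 1 + (K + 1) ^ 2 + 2 * (1 / ε)) * D ^ 2 ≤ 3 / ε * (K + 2) ^ 2 * D ^ 2 := by
      apply mul_le_mul_of_nonneg_right _ (sq_nonneg _)
      rw [hM]
      nlinarith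
    nlinarith
  · have hht : ht h = -(3 / 2) := max_eq_right h1
    rw [hht]
    have hφ : h + e * h ^ 2 ≤ -(3 / 2) * (1 - ε / 10) := by
      have h2 : h + e * h ^ 2 = -((-h) * (1 - e * (-h))) := by ring
      have h3 : 1 - ε / 10 ≤ 1 - e * (-h) := by linarith
      have h4 : 3 / 2 * (1 - ε / 10) ≤ (-h) * (1 - e * (-h)) :=
        mul_le_mul (by linarith) h3 (by linarith) (by linarith)
      rw [h2]
      linarith
    have hτ2 : (1 - ε / 2) * T ^ 2 - 2 * (1 / ε) * D ^ 2 ≤ τ ^ 2 := by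
      have := mul_nonneg (by positivity : (0 : ℝ) ≤ 1 / (2 * ε)) (sq_nonneg (ε * T - 2 * D))
      have h2 : 1 / (2 * ε) * (ε * T - 2 * D) ^ 2 =
          ε / 2 * T ^ 2 - 2 * T * D + 2 * (1 / ε) * D ^ 2 := by
        field_simp
        ring
      rw [hD]
      nlinarith [sq_nonneg D]
    have h3 : (h + e * h ^ 2) * τ ^ 2 ≤ -(3 / 2) * (1 - ε / 10) * τ ^ 2 :=
      mul_le_mul_of_nonneg_right hφ (sq_nonneg _)
    have h4 : 3 / 2 * (1 - ε / 10) * ((1 - ε / 2) * T ^ 2 - 2 * (1 / ε) * D ^ 2) ≤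
        3 / 2 * (1 - ε / 10) * τ ^ 2 := mul_le_mul_of_nonneg_left hτ2 (by linarith)
    have h5 : 3 / 2 * (1 - ε / 10) * (2 * (1 / ε) * D ^ 2) ≤ 3 / ε * (K + 2) ^ 2 * D ^ 2 := by
      have h6 : 3 / 2 * (1 - ε / 10) * (2 * (1 / ε)) ≤ 3 / ε * (K + 2) ^ 2 := by
        rw [hM]
        have h7 : 3 / 2 * (1 - ε / 10) * (2 * (1 / ε)) ≤ 3 / 2 * (2 * (1 / ε)) :=
          mul_le_mul_of_nonneg_right (by linarith) (by linarith)
        linarith
      have := mul_le_mul_of_nonneg_right h6 (sq_nonneg D)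
      linarith
    have h8 : -(3 / 2) * ((1 - ε / 10) * (1 - ε / 2)) * T ^ 2 ≤
        (-(3 / 2) + ε * (-(3 / 2)) ^ 2) * T ^ 2 := by
      apply mul_le_mul_of_nonneg_right _ (sq_nonneg _)
      nlinarith
    nlinarith

/-- The product of the profile and its derivative at the exit. -/
lemma rg_pp {q X h e N H p p' : ℝ} (hN : 0 < N) (hh : h = N * X) (hH : |h| ≤ H)
    (he : 0 ≤ e) (he1 : e * h ^ 2 ≤ 1) (h1 : |p' + q| ≤ e * q * h ^ 2)
    (h2 : |p + q * X| ≤ e * q * |X| * h ^ 2) (hq : 0 ≤ q) :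
    -(q ^ 2 / N * (h + 3 * e * H * h ^ 2)) ≤ -(p' * p) := by
  set e₁ := p' + q with he₁
  set e₂ := p + q * X with he₂
  have hp' : p' = -q + e₁ := by rw [he₁]; ring
  have hp : p = -(q * X) + e₂ := by rw [he₂]; ring
  have hX : |h| = N * |X| := by rw [hh, abs_mul, abs_of_pos hN]
  have h3 : p' * p = q ^ 2 * X + (-(q * e₂) + -(q * X * e₁) + e₁ * e₂) := by
    rw [hp', hp]; ring
  have h4 : |(-(q * e₂) + -(q * X * e₁) + e₁ * e₂)| ≤ 3 * (e * q ^ 2 * |X| * h ^ 2) := by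
    refine (abs_add_three _ _ _).trans ?_
    have a1 : |-(q * e₂)| ≤ e * q ^ 2 * |X| * h ^ 2 := by
      rw [abs_neg, abs_mul, abs_of_nonneg hq]
      calc q * |e₂| ≤ q * (e * q * |X| * h ^ 2) := mul_le_mul_of_nonneg_left h2 hq
        _ = e * q ^ 2 * |X| * h ^ 2 := by ring
    have a2 : |-(q * X * e₁)| ≤ e * q ^ 2 * |X| * h ^ 2 := by
      rw [abs_neg, abs_mul, abs_mul, abs_of_nonneg hq]
      calc q * |X| * |e₁| ≤ q * |X| * (e * q * h ^ 2) :=
            mul_le_mul_of_nonneg_left h1 (by positivity)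
        _ = e * q ^ 2 * |X| * h ^ 2 := by ring
    have a3 : |e₁ * e₂| ≤ e * q ^ 2 * |X| * h ^ 2 := by
      rw [abs_mul]
      calc |e₁| * |e₂| ≤ (e * q * h ^ 2) * (e * q * |X| * h ^ 2) :=
            mul_le_mul h1 h2 (abs_nonneg _) (by positivity)
        _ = (e * h ^ 2) * (e * q ^ 2 * |X| * h ^ 2) := by ring
        _ ≤ 1 * (e * q ^ 2 * |X| * h ^ 2) := mul_le_mul_of_nonneg_right he1 (by positivity)
        _ = e * q ^ 2 * |X| * h ^ 2 := one_mul _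
    linarith
  have h5 : 3 * (e * q ^ 2 * |X| * h ^ 2) ≤ q ^ 2 / N * (3 * e * H * h ^ 2) := by
    have h6 : 3 * (e * q ^ 2 * |X| * h ^ 2) = q ^ 2 / N * (3 * e * |h| * h ^ 2) := by
      rw [hX]; field_simp
    rw [h6]
    apply mul_le_mul_of_nonneg_left _ (by positivity)
    apply mul_le_mul_of_nonneg_right _ (sq_nonneg _)
    exact mul_le_mul_of_nonneg_left hH (by positivity)
  have h7 : q ^ 2 * X = q ^ 2 / N * h := by rw [hh]; field_simp
  rw [h3]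
  have h8 := (abs_le.mp h4).2
  have h9 : q ^ 2 / N * (h + 3 * e * H * h ^ 2) =
      q ^ 2 / N * h + q ^ 2 / N * (3 * e * H * h ^ 2) := by ring
  rw [h9]
  linarith

/-- The quadratic form on a ray splits. -/
lemma rg_split {N : ℕ} {L a b : ℝ} {f f' : ℝ → ℝ} (hN : 3 ≤ N) (hf : C1 f f') (hf0 : f 0 = 0) :
    ∫ r in (0 : ℝ)..b, r ^ (N - 1) * (f' r ^ 2 + (((N : ℝ) - 1) / r ^ 2 - L) * f r ^ 2) =
      (∫ r in (0 : ℝ)..a, r ^ (N - 1) * (f' r ^ 2 + (((N : ℝ) - 1) / r ^ 2 - L) * f r ^ 2)) +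
      ∫ r in a..b, r ^ (N - 1) * (f' r ^ 2 + (((N : ℝ) - 1) / r ^ 2 - L) * f r ^ 2) := by
  have hfcont : Continuous f := continuous_iff_continuousAt.mpr fun x => (hf.1 x).continuousAt
  have hf'cont : Continuous f' := hf.2
  have hpt : (fun r : ℝ => r ^ (N - 1) * (f' r ^ 2 + (((N : ℝ) - 1) / r ^ 2 - L) * f r ^ 2)) =
      fun r => r ^ (N - 1) * (f' r ^ 2 - L * f r ^ 2) +
        ((N : ℝ) - 1) * (r ^ (N - 3) * f r ^ 2) := by
    funext r
    rcases eq_or_ne r 0 with h0 | h0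
    · subst h0
      rw [hf0]
      have : N - 1 ≠ 0 := by omega
      simp [this]
    · have h1 : r ^ (N - 1) = r ^ (N - 3) * r ^ 2 := by
        rw [← pow_add]
        congr 1
        omega
      rw [h1]
      field_simp
      ring
  rw [hpt]
  rw [intervalIntegral.integral_add_adjacent_intervals]
  · exact Continuous.intervalIntegrable (by fun_prop) _ _
  · exact Continuous.intervalIntegrable (by fun_prop) _ _

lemma rg_a1 {k : ℝ} (hk : 1 ≤ k) : Real.exp k + 1 ≤ Real.exp (k + 1) := by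
  rw [Real.exp_add]
  have h5 : 1 ≤ Real.exp k := Real.one_le_exp (by linarith)
  have h6 : 2 ≤ Real.exp 1 := by
    have := Real.add_one_le_exp (1 : ℝ)
    linarith
  nlinarith

lemma rg_a2 {g k x : ℝ} (hg : 0 ≤ g) (h4 : 64 * (g + 1) ≤ k) (h1 : 1 ≤ k) (hx : 1 ≤ x) :
    8 * g ≤ k ^ 2 * x / 8 := by
  have h6 : 64 * (g + 1) * 1 ≤ k * k := mul_le_mul h4 h1 zero_le_one (by linarith)
  have h7 : k ^ 2 * 1 ≤ k ^ 2 * x := mul_le_mul_of_nonneg_left hx (sq_nonneg _)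
  linarith

lemma rg_a3 (t u : ℝ) : t ^ 2 ≤ 2 * u ^ 2 + 2 * (t - u) ^ 2 := by
  nlinarith [sq_nonneg (t - 2 * u)]

lemma rg_a4 {e H k : ℝ} (he : 0 < e) (hH : 1 ≤ H) (hk : 0 < k) :
    3 * e / (100 * H * k) ≤ 3 * e / (100 * k) := by
  apply div_le_div_of_nonneg_left (by positivity) (by positivity)
  have : 1 * k ≤ H * k := mul_le_mul_of_nonneg_right hH hk.le
  linarith

/-- (RG) rays of small volume. -/
theorem pf_RG (hL2 : T_L2) (hPE : T_PE) (hPV : T_PV) (hNB : T_NB) (hPN : T_PN) (hIN : T_IN)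
    (hOX : T_OX) (hZB : T_ZB) : T_RG := by
  intro K ε A G hK hε hε1 hA hG
  have hM0 : 0 ≤ 3 / ε * (K + 2) ^ 2 := by positivity
  set M : ℝ := 3 / ε * (K + 2) ^ 2 with hM
  set A' : ℝ := A + 4 * G + M with hA'
  have hA'1 : 1 ≤ A' := by rw [hA']; linarith
  refine ⟨6 * A' + 64 * (G + 1), by linarith, ?_⟩
  intro K₁ hK₁
  have hK₁1 : 1 ≤ K₁ := by linarith
  have hK₁0 : 0 < K₁ := by linarith
  set H : ℝ := K + K₁ + 1 with hH
  have hH1 : 1 ≤ H := by rw [hH]; linarith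
  set ε' : ℝ := ε / (100 * H * H * K₁) with hε'
  have hε'0 : 0 < ε' := by rw [hε']; positivity
  set s : ℝ := ε / (100 * A' * K₁) with hs
  have hs0 : 0 < s := by
    have : 0 < A' := by linarith
    rw [hs]; positivity
  have hA's : A' * s = ε / (100 * K₁) := by
    have : A' ≠ 0 := by positivity
    rw [hs]; field_simp
  have hA's1 : A' * s ≤ ε / 100 := by
    rw [hA's]
    apply div_le_div_of_nonneg_left hε.le (by norm_num)
    linarith
  obtain ⟨C, N1, hC, hN1, h2⟩ := hL2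
  obtain ⟨N2, hN2, hin⟩ := hIN K₁ hK₁1
  obtain ⟨c, N3, hc, hN3, hox⟩ := hOX K K₁ hK hK₁1
  obtain ⟨N4, hN4, hzb⟩ := hZB K K₁ c s hK hK₁1 hc hs0
  obtain ⟨N5, hN5, hpn⟩ := hPN H ε' hH1 hε'0
  refine ⟨max N1 (max N2 (max N3 (max N4 (max N5 ⌈C ^ 2⌉₊)))), hN1.trans (le_max_left _ _), ?_⟩
  intro N L R r₁ f f' S hN hL hf hS hfS hv haR hRb hins hfR hr0 hra hfr
  simp only [max_le_iff] at hN
  obtain ⟨n1, n2, n3, n4, n5, n6⟩ := hN
  have hN3' : 3 ≤ N := hN1.trans n1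
  have hNr : (3 : ℝ) ≤ N := by exact_mod_cast hN3'
  have hNpos : (0 : ℝ) < N := by linarith
  set a : ℝ := aa N K₁ with ha
  have ha0 : 0 < a := Real.exp_pos _
  have haneg : -K₁ / (N : ℝ) < 0 := div_neg_of_neg_of_pos (by linarith) hNpos
  have ha1 : a < 1 := by
    rw [ha, aa]
    exact Real.exp_lt_one_iff.mpr haneg
  have hP : 0 < ph N L 1 a := (hPV N L (by omega) hL).1 a ha0 ha1
  set τ : ℝ := f a / ph N L 1 a with hτ
  have hfa : f a = τ * ph N L 1 a := by rw [hτ]; field_simp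
  obtain ⟨F, hF0, hFe, hF1, hF2⟩ := hin N L τ r₁ f f' n2 hL hf hfa hr0 hra hfr
  obtain ⟨hRN, hout⟩ := hox N L τ R f f' S n3 hL hf hS hfS hv haR hRb hins hfR hfa
  obtain ⟨Z, hZ1, hZ2, hZ3⟩ := hzb N L τ R f f' n4 hL hf haR hRb hRN hfR hfa
  obtain ⟨-, -, -, -, -, hneg⟩ := hPE N L hN3' hL
  obtain ⟨hNP, hbe1, hbe2⟩ := hNB N L hN3' hL
  have hR0 : 0 < R := ha0.trans_le haR
  set X : ℝ := Real.log R with hX
  set h : ℝ := (N : ℝ) * X with hh
  set q : ℝ := |dph N L 1 1| with hq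
  have hq0 : 0 ≤ q := abs_nonneg _
  have hqe : dph N L 1 1 = -q := by rw [hq, abs_of_neg hneg]; ring
  have hq2 : dph N L 1 1 ^ 2 = q ^ 2 := by rw [hqe]; ring
  set Q : ℝ := q ^ 2 / N with hQ
  have hQ0 : 0 ≤ Q := by rw [hQ]; positivity
  -- the range of `h`
  have hhlo : -K₁ ≤ h := by
    have h3 : -K₁ / (N : ℝ) ≤ X := by
      rw [hX, Real.le_log_iff_exp_le hR0]
      exact haR
    have h4 := mul_le_mul_of_nonneg_left h3 hNpos.le
    have h5 : (N : ℝ) * (-K₁ / N) = -K₁ := by field_simp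
    rw [h5] at h4
    exact h4
  have hhhi : h ≤ K + 1 := by
    have h3 : Real.exp h ≤ Real.exp (K + 1) := by
      have h4 : Real.exp h = R ^ N := by
        rw [hh, hX, Real.exp_nat_mul, Real.exp_log hR0]
      rw [h4]
      exact hRN.trans (rg_a1 hK)
    exact Real.exp_le_exp.mp h3
  have hhabs : |h| ≤ H := abs_le.mpr ⟨by rw [hH]; linarith, by rw [hH]; linarith⟩
  have hh2 : h ^ 2 ≤ H ^ 2 := by
    rw [← sq_abs h]
    exact pow_le_pow_left₀ (abs_nonneg _) hhabs 2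
  have hε'h : ε' * h ^ 2 ≤ 1 := by
    have h3 : ε' * h ^ 2 ≤ ε' * H ^ 2 := mul_le_mul_of_nonneg_left hh2 hε'0.le
    have h4 : ε' * H ^ 2 = ε / (100 * K₁) := by rw [hε']; field_simp
    have h5 : ε / (100 * K₁) ≤ 1 := by
      rw [div_le_one (by positivity)]
      linarith
    linarith
  have hXN : |X| ≤ H / N := by
    rw [le_div_iff₀ hNpos]
    have : |X| * N = |h| := by rw [hh, abs_mul, abs_of_pos hNpos]; ring
    rw [this]
    exact hhabs
  obtain ⟨p1, p2⟩ := hpn N L X n5 hL hXN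
  have hpp : -(Q * (h + 3 * ε' * H * h ^ 2)) ≤ -(Px' N L X * Px N L X) := by
    apply rg_pp hNpos hh hhabs hε'0.le hε'h _ _ hq0
    · have : Px' N L X + q = Px' N L X - dph N L 1 1 := by rw [hqe]; ring
      rw [this]
      exact p1
    · have : Px N L X + q * X = Px N L X - dph N L 1 1 * X := by rw [hqe]; ring
      rw [this]
      exact p2
  -- the splitting
  have hf0 : f 0 = 0 := by
    obtain ⟨δ, hδ, hn⟩ := hf.near
    exact hn 0 (by simpa using hδ.le)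
  have hRR : RR N L f f' =
      (∫ r in (0 : ℝ)..a, r ^ (N - 1) * (f' r ^ 2 + (((N : ℝ) - 1) / r ^ 2 - L) * f r ^ 2)) +
      ∫ r in a..bb N, r ^ (N - 1) * (f' r ^ 2 + (((N : ℝ) - 1) / r ^ 2 - L) * f r ^ 2) :=
    rg_split hN3' hf.c1 hf0
  rw [hFe] at hRR
  set I1 : ℝ := ∫ x in -K₁ / N..X, (gx' N f f' x - τ * Px' N L x) ^ 2 with hI1
  set I2 : ℝ := ∫ x in X..Real.log (bb N), gx N f x ^ 2 with hI2
  set Zi : ℝ := ∫ r in (0 : ℝ)..a, r ^ (N - 3) * (f r - τ * ph N L 1 r) ^ 2 with hZi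
  have hI10 : 0 ≤ I1 := by
    apply intervalIntegral.integral_nonneg_of_forall
    · rw [hX, Real.le_log_iff_exp_le hR0]
      exact haR
    · intro x
      positivity
  have hI20 : 0 ≤ I2 := by
    apply intervalIntegral.integral_nonneg_of_forall
    · exact Real.log_le_log hR0 hRb
    · intro x
      positivity
  have hZi0 : 0 ≤ Zi := by
    apply intervalIntegral.integral_nonneg ha0.le
    intro r hr
    have : 0 ≤ r := hr.1
    positivity
  -- bounds for the coefficients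
  have hNNP : (N : ℝ) * NP N L * be N L = Q := by
    rw [be, hq2, hQ]
    field_simp
  have hNP0 : 0 < (N : ℝ) * NP N L := mul_pos hNpos hNP
  have hNQ : (N : ℝ) * NP N L ≤ 2 * Q := by
    have := mul_le_mul_of_nonneg_left hbe1 hNP0.le
    rw [hNNP] at this
    linarith
  have hbe3 : be N L ≤ 1 := by
    have h3 := h2 N L n1 hL
    have h4 : C ^ 2 ≤ N := (Nat.le_ceil _).trans (by exact_mod_cast n6)
    have h5 : C ≤ Real.sqrt N := Real.le_sqrt_of_sq_le h4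
    have h6 : C / Real.sqrt N ≤ 1 := by
      rw [div_le_one (Real.sqrt_pos.mpr hNpos)]
      exact h5
    have h7 : L ≤ (N : ℝ) ^ 2 / 4 * 2 := by
      refine h3.trans ?_
      apply mul_le_mul_of_nonneg_left _ (by positivity)
      linarith
    refine hbe2.trans ?_
    rw [div_le_one (by positivity)]
    linarith
  have hQN : Q ≤ (N : ℝ) * NP N L := by
    have := mul_le_mul_of_nonneg_left hbe3 hNP0.le
    rw [hNNP] at this
    linarith
  set T : ℝ := Tr N L f with hT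
  have hD2 : (N : ℝ) * NP N L * (T - τ) ^ 2 ≤ N * Z := by
    have := mul_le_mul_of_nonneg_left hZ1 hNpos.le
    linarith
  have hZ0 : 0 ≤ (N : ℝ) * Z := by
    refine le_trans ?_ hD2
    positivity
  -- the absorption of `Z`
  have b1 : A' * (N * Zi) ≤ F / 2 := by
    have h3 : A' ≤ K₁ / 6 := by linarith
    have h4 := mul_le_mul_of_nonneg_right h3 (by positivity : (0 : ℝ) ≤ N * Zi)
    linarith
  have b2 : A' * (s * I1) ≤ 1 / 2 * I1 := by
    have h3 : A' * s ≤ 1 / 2 := by linarith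
    have h4 := mul_le_mul_of_nonneg_right h3 hI10
    linarith
  have b3 : A' * (s * (c * (N : ℝ) ^ 2 * I2)) ≤ c * (N : ℝ) ^ 2 * I2 := by
    have h3 : A' * s ≤ 1 := by linarith
    have h4 := mul_le_mul_of_nonneg_right h3 (by positivity : (0 : ℝ) ≤ c * (N : ℝ) ^ 2 * I2)
    linarith
  have b4 := mul_le_mul_of_nonneg_left hZ3 (by linarith : (0 : ℝ) ≤ A')
  rw [hq2, ← hQ] at b4
  -- the hole
  have b5 : 4 * G * Q * r₁ ^ N * τ ^ 2 ≤ F / 2 := by
    rw [hq2, ← hQ] at hF2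
    have h3 : 8 * G ≤ K₁ ^ 2 * Real.exp K₁ / 8 := by
      exact rg_a2 hG (by linarith) hK₁1 (Real.one_le_exp hK₁0.le)
    have h4 : 0 ≤ Q * r₁ ^ N * τ ^ 2 := by positivity
    have h5 := mul_le_mul_of_nonneg_right h3 h4
    linarith
  have hr1 : r₁ ^ N ≤ 1 := pow_le_one₀ hr0 (hra.trans ha1.le)
  have b6 : (N : ℝ) * NP N L * (G * r₁ ^ N) * T ^ 2 ≤
      4 * G * Q * r₁ ^ N * τ ^ 2 + 4 * G * (N * Z) := by
    have h3 : T ^ 2 ≤ 2 * τ ^ 2 + 2 * (T - τ) ^ 2 := rg_a3 T τ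
    have h4 : (N : ℝ) * NP N L * (G * r₁ ^ N) ≤ 2 * Q * (G * r₁ ^ N) :=
      mul_le_mul_of_nonneg_right hNQ (by positivity)
    have h5 : (N : ℝ) * NP N L * (G * r₁ ^ N) * T ^ 2 ≤
        2 * Q * (G * r₁ ^ N) * (2 * τ ^ 2 + 2 * (T - τ) ^ 2) :=
      mul_le_mul h4 h3 (sq_nonneg _) (by positivity)
    have h6 : Q * (T - τ) ^ 2 ≤ N * Z :=
      (mul_le_mul_of_nonneg_right hQN (sq_nonneg _)).trans hD2
    have h7 : r₁ ^ N * (Q * (T - τ) ^ 2) ≤ 1 * (N * Z) :=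
      mul_le_mul hr1 h6 (by positivity) zero_le_one
    have h8 := mul_le_mul_of_nonneg_left h7 (by positivity : (0 : ℝ) ≤ 4 * G)
    linarith
  -- the main term
  have hK₁i : ε / (100 * K₁) ≤ ε / 100 := by
    apply div_le_div_of_nonneg_left hε.le (by norm_num)
    linarith
  have he3 : 3 * ε' * H = 3 * ε / (100 * H * K₁) := by
    rw [hε']; field_simp
  have he4 : 3 * ε / (100 * H * K₁) ≤ 3 * ε / (100 * K₁) := rg_a4 hε hH1 hK₁0
  have he5 : 3 * ε / (100 * K₁) = 3 * (ε / (100 * K₁)) := by ring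
  have he6 : 3 * ε' * H + A' * s ≤ 4 * (ε / (100 * K₁)) := by
    rw [hA's, he3]
    linarith
  have he0 : 0 ≤ 3 * ε' * H + A' * s := by positivity
  have b7 := rg_swap (T := T) (τ := τ) hK hε hε1 he0
    (by linarith : 3 * ε' * H + A' * s ≤ ε / 25) hhhi (by
      have h3 : (3 * ε' * H + A' * s) * (-h) ≤ (3 * ε' * H + A' * s) * K₁ :=
        mul_le_mul_of_nonneg_left (by linarith) he0
      have h4 := mul_le_mul_of_nonneg_right he6 hK₁0.le
      have h5 : 4 * (ε / (100 * K₁)) * K₁ = ε / 25 := by field_simp; norm_num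
      linarith)
  rw [← hM] at b7
  have b8 := mul_le_mul_of_nonneg_left b7 hQ0
  have b9 : Q * (M * (T - τ) ^ 2) ≤ M * (N * Z) := by
    have h6 : Q * (T - τ) ^ 2 ≤ N * Z :=
      (mul_le_mul_of_nonneg_right hQN (sq_nonneg _)).trans hD2
    have := mul_le_mul_of_nonneg_left h6 hM0
    linarith
  have b10 : A * N * Wr N L f ≤ A * (N * Z) := by
    have := mul_le_mul_of_nonneg_left hZ2 (by positivity : (0 : ℝ) ≤ A * N)
    linarith
  have b11 : -(Q * (h + 3 * ε' * H * h ^ 2)) * τ ^ 2 ≤ -(Px' N L X * Px N L X) * τ ^ 2 :=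
    mul_le_mul_of_nonneg_right hpp (sq_nonneg _)
  have b12 : ((N : ℝ) * NP N L * (be N L * (ht h + ε * ht h ^ 2) - G * r₁ ^ N)) * T ^ 2 =
      Q * ((ht h + ε * ht h ^ 2) * T ^ 2) - (N : ℝ) * NP N L * (G * r₁ ^ N) * T ^ 2 := by
    rw [← hNNP]; ring
  have b13 : A' * (N * Z) = A * (N * Z) + 4 * G * (N * Z) + M * (N * Z) := by
    rw [hA']; ring
  have b14 : -((N : ℝ) * NP N L * (be N L * (ht h + ε * ht h ^ 2) - G * r₁ ^ N)) * T ^ 2 =
      -(Q * ((ht h + ε * ht h ^ 2) * T ^ 2)) + (N : ℝ) * NP N L * (G * r₁ ^ N) * T ^ 2 := by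
    rw [neg_mul, b12]; ring
  rw [b14]
  linarith

end Pool.Agent.H72.LNN
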