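import Pool.Agent.H69.LQ.Lib
import Pool.Agent.H69.LNN.Targets

/-!
# Functions on a ray which vanish at the end

The inequality for functions vanishing at `c` follows from the Jacobi inequality of degree `1` by a
limit.
-/

set_option autoImplicit false

open MeasureTheory Metric Set Filter
open scoped ENNReal Topology

open Pool.Agent.H85.LK (E adm lam Ann)
open Pool.Agent.H69.LQ
open Pool.Agent.H69.LNN

namespace Pool.Agent.H72.LNN

/-- (SI) functions which vanish at `c`. -/
theorem pf_SI (hM1 : T_M1) (hPV : T_PV) : T_SI := by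
  intro N L c f f' hN hL hc hf hf0 hfc
  have hfcont : Continuous f := continuous_iff_continuousAt.mpr fun x => (hf.1 x).continuousAt
  have hf'cont : Continuous f' := hf.2
  have hpt : ∀ r : ℝ, r ^ (N - 1) * (f' r ^ 2 + ((N : ℝ) - 1) / r ^ 2 * f r ^ 2) =
      r ^ (N - 1) * f' r ^ 2 + ((N : ℝ) - 1) * (r ^ (N - 3) * f r ^ 2) := by
    intro r
    rcases eq_or_ne r 0 with h0 | h0
    · subst h0
      rw [hf0]
      simp
    · have h1 : r ^ (N - 1) = r ^ (N - 3) * r ^ 2 := by
        rw [← pow_add]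
        congr 1
        omega
      rw [h1]
      field_simp
  have hA : IntervalIntegrable
      (fun r => r ^ (N - 1) * (f' r ^ 2 + ((N : ℝ) - 1) / r ^ 2 * f r ^ 2)) volume 0 c := by
    have : (fun r => r ^ (N - 1) * (f' r ^ 2 + ((N : ℝ) - 1) / r ^ 2 * f r ^ 2)) =
        fun r => r ^ (N - 1) * f' r ^ 2 + ((N : ℝ) - 1) * (r ^ (N - 3) * f r ^ 2) :=
      funext hpt
    rw [this]
    exact Continuous.intervalIntegrable (by fun_prop) _ _
  have hB : IntervalIntegrable (fun r => r ^ (N - 1) * f r ^ 2) volume 0 c :=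
    Continuous.intervalIntegrable (by fun_prop) _ _
  set A := ∫ r in (0 : ℝ)..c, r ^ (N - 1) * (f' r ^ 2 + ((N : ℝ) - 1) / r ^ 2 * f r ^ 2) with hAd
  set B := ∫ r in (0 : ℝ)..c, r ^ (N - 1) * f r ^ 2 with hBd
  have key : ∀ μ : ℝ, 0 < μ → μ * c < 1 → μ ^ 2 * (L * B) ≤ A := by
    intro μ hμ hμc
    have h1 := hM1 N 1 L μ c f f' (by omega) le_rfl hμ hc
      (fun r hr hr2 => (hPV N L (by omega) hL).1 r hr (lt_of_le_of_lt hr2 hμc)) hf hf0
    rw [hfc] at h1
    have h2 : (∫ r in (0 : ℝ)..c, r ^ (N - 1) * (f' r ^ 2 +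
        (((1 : ℕ) : ℝ) * (((1 : ℕ) : ℝ) + N - 2) / r ^ 2 - μ ^ 2 * L) * f r ^ 2)) =
        A - μ ^ 2 * L * B := by
      rw [hAd, hBd, ← intervalIntegral.integral_const_mul,
        ← intervalIntegral.integral_sub hA (hB.const_mul _)]
      apply intervalIntegral.integral_congr
      intro r _
      simp only [Nat.cast_one, one_mul]
      have : (1 : ℝ) + N - 2 = N - 1 := by ring
      rw [this]
      ring
    rw [h2] at h1
    have h3 : dd N L 1 μ c * 0 ^ 2 = 0 := by ring
    rw [h3] at h1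
    linarith
  have hlim : Tendsto (fun μ : ℝ => μ ^ 2 * (L * B)) (𝓝[<] (1 / c)) (𝓝 ((1 / c) ^ 2 * (L * B))) :=
    Tendsto.mono_left (Continuous.tendsto (by fun_prop) _) nhdsWithin_le_nhds
  have hle : (1 / c) ^ 2 * (L * B) ≤ A := by
    apply le_of_tendsto hlim
    have h0 : (0 : ℝ) < 1 / c := by positivity
    filter_upwards [Ioo_mem_nhdsLT h0] with μ hμ
    apply key μ hμ.1
    have h1 := mul_lt_mul_of_pos_right hμ.2 hc
    rwa [one_div_mul_cancel hc.ne'] at h1
  calc L / c ^ 2 * B = (1 / c) ^ 2 * (L * B) := by ring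
    _ ≤ A := hle

end Pool.Agent.H72.LNN
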