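import Pool.Agent.H69.LQ.Lib
import Pool.Agent.H69.LNN.Targets

/-!
# The volume of a ray

The volume of a ray is the volume of the ball up to the first exit, minus the holes, plus the part
beyond the first exit. All these functions of the direction are bounded and measurable.
-/

set_option autoImplicit false

open MeasureTheory Metric Set
open scoped ENNReal

open Pool.Agent.H85.LK (E adm lam Ann)
open Pool.Agent.H69.LQ
open Pool.Agent.H69.LNN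

namespace Pool.Agent.H72.LNN

/-- The density of the volume on a ray. -/
noncomputable def wt (N : ℕ) (r : ℝ) : ℝ := (N : ℝ) * r ^ (N - 1)

lemma wt_cont (N : ℕ) : Continuous (wt N) := by
  unfold wt
  fun_prop

lemma wt_nonneg (N : ℕ) {r : ℝ} (hr : 0 ≤ r) : 0 ≤ wt N r := by
  unfold wt
  positivity

lemma wt_int (N : ℕ) (hN : 1 ≤ N) (c d : ℝ) : ∫ r in c..d, wt N r = d ^ N - c ^ N := by
  unfold wt
  rw [intervalIntegral.integral_const_mul, integral_pow]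
  have h1 : N - 1 + 1 = N := Nat.sub_add_cancel hN
  have h2 : ((N - 1 : ℕ) : ℝ) + 1 = N := by
    exact_mod_cast h1
  have h3 : (N : ℝ) ≠ 0 := by
    have : (1 : ℝ) ≤ N := by exact_mod_cast hN
    positivity
  rw [h1, h2]
  field_simp

lemma wt_Ioo (N : ℕ) (hN : 1 ≤ N) {c d : ℝ} (h : c ≤ d) :
    ∫ r in Ioo c d, wt N r = d ^ N - c ^ N := by
  rw [← integral_Ioc_eq_integral_Ioo, ← intervalIntegral.integral_of_le h, wt_int N hN]

lemma wt_Ioc (N : ℕ) (hN : 1 ≤ N) {c d : ℝ} (h : c ≤ d) :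
    ∫ r in Ioc c d, wt N r = d ^ N - c ^ N := by
  rw [← intervalIntegral.integral_of_le h, wt_int N hN]

lemma wt_Ico (N : ℕ) (hN : 1 ≤ N) {c d : ℝ} (h : c ≤ d) :
    ∫ r in Ico c d, wt N r = d ^ N - c ^ N := by
  rw [integral_Ico_eq_integral_Ioo, wt_Ioo N hN h]

lemma wt_on (N : ℕ) {T : Set ℝ} {d : ℝ} (hT : T ⊆ Icc 0 d) : IntegrableOn (wt N) T volume :=
  ((wt_cont N).continuousOn.integrableOn_Icc).mono_set hT

lemma wt_mono (N : ℕ) {T T' : Set ℝ} {d : ℝ} (hT' : T' ⊆ Icc 0 d) (h : T ⊆ T')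
    (hm : MeasurableSet T') : ∫ r in T, wt N r ≤ ∫ r in T', wt N r := by
  apply setIntegral_mono_set (wt_on N hT')
  · rw [Filter.EventuallyLE, ae_restrict_iff' hm]
    exact Filter.Eventually.of_forall fun r hr => wt_nonneg N (hT' hr).1
  · exact Filter.Eventually.of_forall h

lemma wt_pos (N : ℕ) {T : Set ℝ} {d : ℝ} (hT : T ⊆ Icc 0 d) (hm : MeasurableSet T) :
    0 ≤ ∫ r in T, wt N r :=
  setIntegral_nonneg hm fun r hr => wt_nonneg N (hT hr).1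

/-- Integrals over the sections of a measurable set are measurable. -/
lemma meas_sec {N : ℕ} {A : Set (Sp N × ℝ)} (hA : MeasurableSet A) :
    Measurable fun θ : Sp N => ∫ r in {r | (θ, r) ∈ A}, wt N r := by
  have h1 : (fun θ : Sp N => ∫ r in {r | (θ, r) ∈ A}, wt N r) =
      fun θ : Sp N => ∫ r, A.indicator (fun x : Sp N × ℝ => wt N x.2) (θ, r) := by
    funext θ
    have hm : MeasurableSet {r : ℝ | (θ, r) ∈ A} := measurable_prodMk_left hA
    rw [← integral_indicator hm]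
    rfl
  rw [h1]
  apply StronglyMeasurable.measurable
  apply StronglyMeasurable.integral_prod_right'
    (f := A.indicator (fun x : Sp N × ℝ => wt N x.2))
  exact (((wt_cont N).comp continuous_snd).measurable.indicator hA).stronglyMeasurable

lemma cont_ray (N : ℕ) : Continuous fun x : Sp N × ℝ => x.2 • (x.1 : E N) :=
  continuous_snd.smul (continuous_subtype_val.comp continuous_fst)

/-- (VR) the volume of a ray. -/
theorem pf_VR : T_VR := by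
  intro N Ω a R r₁ hN hΩ ha ha1 hE
  have hN1 : 1 ≤ N := by omega
  have hbb : ∀ θ, 0 < R θ := fun θ => ha.trans_le (hE.lo θ)
  have hS : ∀ θ : Sp N, MeasurableSet (Sr Ω θ) := fun θ =>
    (hΩ.preimage (continuous_id.smul continuous_const)).measurableSet
  have hO : MeasurableSet {x : Sp N × ℝ | x.2 • (x.1 : E N) ∈ Ω} :=
    (hΩ.preimage (cont_ray N)).measurableSet
  have hpt : ∀ θ, R θ ^ N + ds Ω R θ = rho Ω θ + Hh Ω a θ ∧ 0 ≤ ds Ω R θ ∧
      ds Ω R θ ≤ rho Ω θ ∧ 0 ≤ Hh Ω a θ ∧ Hh Ω a θ ≤ r₁ θ ^ N ∧ rho Ω θ ≤ bb N ^ N := by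
    intro θ
    have hR0 := hbb θ
    have hb : 0 ≤ bb N := hR0.le.trans (hE.hi θ)
    have s1 : Ioo 0 (bb N) ∩ Sr Ω θ ⊆ Icc 0 (bb N) := fun r hr => ⟨hr.1.1.le, hr.1.2.le⟩
    have s2 : Ioo (R θ) (bb N) ∩ Sr Ω θ ⊆ Ioo 0 (bb N) ∩ Sr Ω θ := fun r hr =>
      ⟨⟨hR0.trans hr.1.1, hr.1.2⟩, hr.2⟩
    have s3 : Ioo 0 a \ Sr Ω θ ⊆ Icc 0 a := fun r hr => ⟨hr.1.1.le, hr.1.2.le⟩
    have s4 : Ioo 0 a ∩ Sr Ω θ ⊆ Icc 0 a := fun r hr => ⟨hr.1.1.le, hr.1.2.le⟩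
    have s5 : Ico a (R θ) ⊆ Icc 0 (R θ) := fun r hr => ⟨ha.le.trans hr.1, hr.2.le⟩
    have m1 : MeasurableSet (Ioo 0 (bb N) ∩ Sr Ω θ) := measurableSet_Ioo.inter (hS θ)
    have m2 : MeasurableSet (Ioo (R θ) (bb N) ∩ Sr Ω θ) := measurableSet_Ioo.inter (hS θ)
    have m3 : MeasurableSet (Ioo 0 a \ Sr Ω θ) := measurableSet_Ioo.diff (hS θ)
    have hrho : rho Ω θ = ∫ r in Ioo 0 (bb N) ∩ Sr Ω θ, wt N r := rfl
    have hds : ds Ω R θ = ∫ r in Ioo (R θ) (bb N) ∩ Sr Ω θ, wt N r := rfl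
    have hHh : Hh Ω a θ = ∫ r in Ioo 0 a \ Sr Ω θ, wt N r := rfl
    have hdec : Ioo 0 (bb N) ∩ Sr Ω θ =
        ((Ioo 0 a ∩ Sr Ω θ) ∪ Ico a (R θ)) ∪ (Ioo (R θ) (bb N) ∩ Sr Ω θ) := by
      ext r
      constructor
      · rintro ⟨hr, hrS⟩
        rcases lt_or_ge r a with h | h
        · exact Or.inl (Or.inl ⟨⟨hr.1, h⟩, hrS⟩)
        rcases lt_trichotomy r (R θ) with h' | h' | h'
        · exact Or.inl (Or.inr ⟨h, h'⟩)
        · exfalso
          rw [h'] at hr hrS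
          exact hE.out θ hr.2 hrS
        · exact Or.inr ⟨⟨h', hr.2⟩, hrS⟩
      · rintro ((⟨hr, hrS⟩ | hr) | ⟨hr, hrS⟩)
        · exact ⟨⟨hr.1, hr.2.trans_le ((hE.lo θ).trans (hE.hi θ))⟩, hrS⟩
        · exact ⟨⟨ha.trans_le hr.1, hr.2.trans_le (hE.hi θ)⟩, hE.ins θ r hr.1 hr.2⟩
        · exact ⟨⟨hR0.trans hr.1, hr.2⟩, hrS⟩
    have hd1 : Disjoint (Ioo 0 a ∩ Sr Ω θ) (Ico a (R θ)) := by
      rw [Set.disjoint_left]
      rintro r ⟨h, -⟩ h'
      exact absurd h.2 (not_lt.mpr h'.1)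
    have hd2 : Disjoint ((Ioo 0 a ∩ Sr Ω θ) ∪ Ico a (R θ)) (Ioo (R θ) (bb N) ∩ Sr Ω θ) := by
      rw [Set.disjoint_left]
      rintro r (⟨h, -⟩ | h) ⟨h', -⟩
      · exact absurd (h.2.trans_le (hE.lo θ)) (not_lt.mpr h'.1.le)
      · exact absurd h.2 (not_lt.mpr h'.1.le)
    have e1 : rho Ω θ = (∫ r in Ioo 0 a ∩ Sr Ω θ, wt N r) + (R θ ^ N - a ^ N) + ds Ω R θ := by
      rw [hrho, hdec, setIntegral_union hd2 m2
        ((wt_on N s4).union (wt_on N s5)) (wt_on N (s2.trans s1)),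
        setIntegral_union hd1 measurableSet_Ico (wt_on N s4) (wt_on N s5),
        wt_Ico N hN1 (hE.lo θ), hds]
    have e2 : (∫ r in Ioo 0 a ∩ Sr Ω θ, wt N r) + Hh Ω a θ = a ^ N := by
      rw [hHh, integral_inter_add_diff (hS θ) (wt_on N (Ioo_subset_Icc_self)),
        wt_Ioo N hN1 ha.le, zero_pow (by omega), sub_zero]
    have e3 : 0 ≤ ds Ω R θ := wt_pos N (s2.trans s1) m2
    have e4 : ds Ω R θ ≤ rho Ω θ := wt_mono N s1 s2 m1
    have e5 : 0 ≤ Hh Ω a θ := wt_pos N s3 m3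
    have e6 : Hh Ω a θ ≤ r₁ θ ^ N := by
      have h1 : Ioo 0 a \ Sr Ω θ ⊆ Ioc 0 (r₁ θ) := by
        rintro r ⟨hr, hrS⟩
        refine ⟨hr.1, ?_⟩
        by_contra hcon
        push Not at hcon
        exact hrS (hE.full θ r hcon hr.2)
      have h2 : (∫ r in Ioc 0 (r₁ θ), wt N r) = r₁ θ ^ N := by
        rw [wt_Ioc N hN1 (hE.nn θ), zero_pow (by omega), sub_zero]
      rw [← h2]
      exact wt_mono N Ioc_subset_Icc_self h1 measurableSet_Ioc
    have e7 : rho Ω θ ≤ bb N ^ N := by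
      have h2 : (∫ r in Ioo 0 (bb N), wt N r) = bb N ^ N := by
        rw [wt_Ioo N hN1 hb, zero_pow (by omega), sub_zero]
      rw [← h2]
      exact wt_mono N Ioo_subset_Icc_self inter_subset_left measurableSet_Ioo
    exact ⟨by linarith, e3, e4, e5, e6, e7⟩
  have hm_rho : Measurable (rho Ω) := by
    have hA : MeasurableSet ({x : Sp N × ℝ | x.2 ∈ Ioo 0 (bb N)} ∩
        {x : Sp N × ℝ | x.2 • (x.1 : E N) ∈ Ω}) :=
      (measurableSet_Ioo.preimage measurable_snd).inter hO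
    exact meas_sec hA
  have hm_ds : Measurable (ds Ω R) := by
    have hA : MeasurableSet (({x : Sp N × ℝ | R x.1 < x.2} ∩ {x : Sp N × ℝ | x.2 < bb N}) ∩
        {x : Sp N × ℝ | x.2 • (x.1 : E N) ∈ Ω}) :=
      ((measurableSet_lt (hE.measR.comp measurable_fst) measurable_snd).inter
        (measurableSet_lt measurable_snd measurable_const)).inter hO
    exact meas_sec hA
  have hm_Hh : Measurable (Hh Ω a) := by
    have hA : MeasurableSet ({x : Sp N × ℝ | x.2 ∈ Ioo 0 a} \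
        {x : Sp N × ℝ | x.2 • (x.1 : E N) ∈ Ω}) :=
      (measurableSet_Ioo.preimage measurable_snd).diff hO
    exact meas_sec hA
  refine ⟨⟨hm_rho, bb N ^ N, fun θ => ?_⟩, ⟨hE.measR, bb N, fun θ => ?_⟩,
    ⟨hE.meas1, a, fun θ => ?_⟩, ⟨hm_ds, bb N ^ N, fun θ => ?_⟩, ⟨hm_Hh, a ^ N, fun θ => ?_⟩, hpt⟩
  · obtain ⟨-, h2, h3, -, -, h6⟩ := hpt θ
    rw [abs_of_nonneg (h2.trans h3)]
    exact h6
  · rw [abs_of_pos (hbb θ)]
    exact hE.hi θ
  · rw [abs_of_nonneg (hE.nn θ)]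
    exact hE.le θ
  · obtain ⟨-, h2, h3, -, -, h6⟩ := hpt θ
    rw [abs_of_nonneg h2]
    exact h3.trans h6
  · obtain ⟨-, -, -, h4, h5, -⟩ := hpt θ
    rw [abs_of_nonneg h4]
    exact h5.trans (pow_le_pow_left₀ (hE.nn θ) (hE.le θ) N)

end Pool.Agent.H72.LNN
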